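import Mathlib
import Pool.Agent.Helper434.TMRows

set_option autoImplicit false

namespace Pool.Agent.Results.MP_33280d_mp.UnboundedEigenfunctions

open MeasureTheory ComplexConjugate

/-- The Hilbert space of square summable complex sequences indexed by the integers. -/
def L2Z : Type := lp (fun _ : ℤ => ℂ) 2

noncomputable instance : NormedAddCommGroup L2Z :=
  (inferInstance : NormedAddCommGroup (lp (fun _ : ℤ => ℂ) 2))

noncomputable instance : InnerProductSpace ℂ L2Z :=
  (inferInstance : InnerProductSpace ℂ (lp (fun _ : ℤ => ℂ) 2))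

instance : CompleteSpace L2Z := (inferInstance : CompleteSpace (lp (fun _ : ℤ => ℂ) 2))

/-- The standard basis vector with index `i`. -/
noncomputable def delta (i : ℤ) : L2Z := (lp.single 2 i (1 : ℂ) : lp (fun _ : ℤ => ℂ) 2)

/-- The matrix element `a_ij = (δ_i, A δ_j)`. -/
noncomputable def entry (A : L2Z →L[ℂ] L2Z) (i j : ℤ) : ℂ := inner ℂ (delta i) (A (delta j))

/-- The measure on `ℝ × ℕ` whose `L²` space is `L²(ℝ; ℂ^{n(E)}; dρ)`: it is the product of `ρ`
with counting measure, restricted to the pairs `(E, α)` with `α < n(E)`. A function `F` on this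
space is the `ℂ^{n(E)}`-valued function with components `F (E, α)`, `α < n(E)`. -/
noncomputable def fiberMeasure (ρ : Measure ℝ) (n : ℝ → ℕ∞) : Measure (ℝ × ℕ) :=
  (ρ.prod Measure.count).restrict {p | (p.2 : ℕ∞) < n p.1}

/-- The Hilbert space `L²(ℝ; ℂ^{n(E)}; dρ)`. -/
def FiberL2 (ρ : Measure ℝ) (n : ℝ → ℕ∞) : Type := Lp ℂ 2 (fiberMeasure ρ n)

noncomputable instance (ρ : Measure ℝ) (n : ℝ → ℕ∞) : NormedAddCommGroup (FiberL2 ρ n) :=
  (inferInstance : NormedAddCommGroup (Lp ℂ 2 (fiberMeasure ρ n)))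

noncomputable instance (ρ : Measure ℝ) (n : ℝ → ℕ∞) : InnerProductSpace ℂ (FiberL2 ρ n) :=
  (inferInstance : InnerProductSpace ℂ (Lp ℂ 2 (fiberMeasure ρ n)))

/-- The components of an element of `L²(ℝ; ℂ^{n(E)}; dρ)`, as a function of `(E, α)`. -/
noncomputable def FiberL2.comp {ρ : Measure ℝ} {n : ℝ → ℕ∞} (f : FiberL2 ρ n) : ℝ × ℕ → ℂ :=
  AEEqFun.cast (Subtype.val (p := fun g => g ∈ Lp ℂ 2 (fiberMeasure ρ n)) f)

/-- Condition (a): growth at most linear. -/
def LinearGrowth (n : ℝ → ℕ∞) (u : ℝ → ℕ → ℤ → ℂ) : Prop :=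
  ∀ (E : ℝ) (α : ℕ), (α : ℕ∞) < n E → ∃ C : ℝ, ∀ m : ℤ, ‖u E α m‖ ≤ C * (1 + |(m : ℝ)|)

/-- Condition (b): the eigenvalue equation `∑_j a_ij u(j) = E u(i)`. -/
def SolvesEigenEquation (A : L2Z →L[ℂ] L2Z) (n : ℝ → ℕ∞) (u : ℝ → ℕ → ℤ → ℂ) : Prop :=
  ∀ (E : ℝ) (α : ℕ), (α : ℕ∞) < n E →
    ∀ i : ℤ, HasSum (fun j => entry A i j * u E α j) ((E : ℂ) * u E α i)

/-- Condition (c), the formula for the unitary map: for finitely supported `g`, the components
of `U g` are `∑_m conj (u_α(E;m)) g(m)`. -/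
def IsTransform {ρ : Measure ℝ} {n : ℝ → ℕ∞} (u : ℝ → ℕ → ℤ → ℂ)
    (U : L2Z ≃ₗᵢ[ℂ] FiberL2 ρ n) : Prop :=
  ∀ g : ℤ →₀ ℂ, (U (∑ m ∈ g.support, g m • delta m)).comp =ᵐ[fiberMeasure ρ n]
    fun p => ∑ m ∈ g.support, conj (u p.1 p.2 m) * g m

/-- Condition (d): `U` carries `A` to multiplication by `E`. -/
def Intertwines {ρ : Measure ℝ} {n : ℝ → ℕ∞} (A : L2Z →L[ℂ] L2Z)
    (U : L2Z ≃ₗᵢ[ℂ] FiberL2 ρ n) : Prop :=
  ∀ g : L2Z, (U (A g)).comp =ᵐ[fiberMeasure ρ n] fun p => (p.1 : ℂ) * (U g).comp p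

/-- A BGK (continuum eigenfunction) expansion of the operator `A`. The sequences attached to
the energy `E` are `u E α`, for `α < n E`; `U` is a unitary map of `ℓ²(ℤ)` onto
`L²(ℝ; ℂ^{n(E)}; dρ)`. -/
structure BGKExpansion (A : L2Z →L[ℂ] L2Z) where
  /-- the Borel measure -/
  ρ : Measure ℝ
  /-- the multiplicity function -/
  n : ℝ → ℕ∞
  /-- the generalized eigenfunctions -/
  u : ℝ → ℕ → ℤ → ℂ
  /-- the unitary map -/
  U : L2Z ≃ₗᵢ[ℂ] FiberL2 ρ n
  measurable_n : Measurable n
  measurable_u : ∀ α m, Measurable fun E => u E α m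
  one_le_n : ∀ᵐ E ∂ρ, 1 ≤ n E
  n_eq_zero : ∀ E, E ∉ ρ.support → n E = 0
  linearIndependent : ∀ E, LinearIndependent ℂ (fun α : {α : ℕ // (α : ℕ∞) < n E} => u E α)
  growth : LinearGrowth n u
  eigen : SolvesEigenEquation A n u
  transform : IsTransform u U
  intertwines : Intertwines A U

/-- The matrix of `A` is banded: `a_ij = 0` for `|i - j| ≥ K`. -/
def Banded (K : ℤ) (A : L2Z →L[ℂ] L2Z) : Prop := ∀ i j : ℤ, K ≤ |i - j| → entry A i j = 0

/-- The growth constant in (a) can be chosen independent of `E` and `α`. -/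
def UniformGrowth {A : L2Z →L[ℂ] L2Z} (B : BGKExpansion A) : Prop :=
  ∃ C : ℝ, ∀ (E : ℝ) (α : ℕ) (m : ℤ), (α : ℕ∞) < B.n E → ‖B.u E α m‖ ≤ C * (1 + |(m : ℝ)|)

/-- There is a set of energies of positive `ρ`-measure such that for every energy `E` in it,
`n(E) ≥ 1` and all the sequences `u_α(E;·)`, `α < n(E)`, are unbounded. -/
def HasUnbounded {A : L2Z →L[ℂ] L2Z} (B : BGKExpansion A) : Prop :=
  ∃ S : Set ℝ, MeasurableSet S ∧ 0 < B.ρ S ∧
    ∀ E ∈ S, 1 ≤ B.n E ∧ ∀ α : ℕ, (α : ℕ∞) < B.n E →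
      ¬ ∃ R : ℝ, ∀ m : ℤ, ‖B.u E α m‖ ≤ R

open Pool.Agent.Helper434.TMBasis Pool.Agent.Helper434.TMCircle Pool.Agent.Helper434.TMHilbert
open Pool.Agent.Helper434.TMOper Pool.Agent.Helper434.TMGrow Pool.Agent.Helper434.TMRows

lemma mem_supp {E : ℝ} (hE : E ∈ Set.Ioo (-2 : ℝ) 2) : E ∈ rho.support := by
  rw [Measure.mem_support_iff_forall]
  intro V hV
  obtain ⟨O, hOV, hO, hEO⟩ := mem_nhds_iff.mp hV
  refine lt_of_lt_of_le ?_ (measure_mono hOV)
  unfold rho
  rw [Measure.map_apply meas_re hO.measurableSet,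
    Measure.restrict_apply (meas_re hO.measurableSet)]
  have hopen : IsOpen ((fun x : TT => 2 * (ee x).re) ⁻¹' O ∩ Up) := by
    apply IsOpen.inter
    · exact hO.preimage (continuous_const.mul (Complex.continuous_re.comp ee_cont))
    · exact isOpen_lt continuous_const (Complex.continuous_im.comp ee_cont)
  have h1 : -1 ≤ E / 2 := by linarith [hE.1]
  have h2 : E / 2 ≤ 1 := by linarith [hE.2]
  have e1 : ee ((Real.arccos (E / 2) : ℝ) : TT) =
      Complex.exp ((Real.arccos (E / 2) : ℝ) * Complex.I) := by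
    rw [ee_coe]; simp [circleMap]
  refine hopen.measure_pos hm ⟨((Real.arccos (E / 2) : ℝ) : TT), ?_, ?_⟩
  · change 2 * (ee ((Real.arccos (E / 2) : ℝ) : TT)).re ∈ O
    rw [e1, Complex.exp_ofReal_mul_I_re, Real.cos_arccos h1 h2]
    have : 2 * (E / 2) = E := by ring
    rw [this]
    exact hEO
  · change 0 < (ee ((Real.arccos (E / 2) : ℝ) : TT)).im
    rw [e1, Complex.exp_ofReal_mul_I_im, Real.sin_arccos]
    apply Real.sqrt_pos.mpr
    nlinarith [hE.1, hE.2]

lemma lin_ind (E : ℝ) :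
    LinearIndependent ℂ (fun α : {α : ℕ // (α : ℕ∞) < mult E} => sol E α) := by
  by_cases hE : E ∈ Set.Ioo (-2 : ℝ) 2
  · have h2 : mult E = 2 := by unfold mult; rw [if_pos hE]
    have hpair : LinearIndependent ℂ ![sol E 0, sol E 1] := by
      rw [LinearIndependent.pair_iff]
      intro s t hst
      by_contra hc
      apply comb_unbdd hE hc
      refine ⟨0, fun m => ?_⟩
      have := congrFun hst m
      simp only [Pi.add_apply, Pi.smul_apply, smul_eq_mul, Pi.zero_apply] at this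
      rw [this, norm_zero]
    have hlt : ∀ α : {α : ℕ // (α : ℕ∞) < mult E}, α.1 < 2 := by
      intro α
      have := lt_of_lt_of_eq α.2 h2
      exact_mod_cast this
    have hcomp := hpair.comp (fun α : {α : ℕ // (α : ℕ∞) < mult E} => (⟨α.1, hlt α⟩ : Fin 2))
      (fun α β h => Subtype.ext (by simpa using h))
    convert hcomp using 1
    funext α
    obtain ⟨α, hα⟩ := α
    have h3 : α < 2 := hlt ⟨α, hα⟩
    interval_cases α
    · rfl
    · rfl
  · have h2 : mult E = 0 := by unfold mult; rw [if_neg hE]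
    have : IsEmpty {α : ℕ // (α : ℕ∞) < mult E} := by
      rw [h2]
      exact ⟨fun α => not_lt_bot α.2⟩
    exact linearIndependent_empty_type

lemma mem_of_lt {E : ℝ} {α : ℕ} (h : (α : ℕ∞) < mult E) : E ∈ Set.Ioo (-2 : ℝ) 2 := by
  by_contra hE
  unfold mult at h
  rw [if_neg hE] at h
  exact not_lt_bot h

lemma sol_bound {E : ℝ} (hE : E ∈ Set.Ioo (-2 : ℝ) 2) (α : ℕ) (m : ℤ) :
    ‖sol E α m‖ ≤ 1 * (1 + |(m : ℝ)|) := by
  unfold sol hh
  rw [RCLike.norm_conj, one_mul]
  exact g_bound (zz_norm (p := (E, α)) hE) m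

/-- the operator of the example -/
noncomputable def theA : L2Z →L[ℂ] L2Z := AA aa_lt

/-- the explicit expansion -/
noncomputable def expansion : BGKExpansion theA where
  ρ := rho
  n := mult
  u := sol
  U := UU aa_lt
  measurable_n := Measurable.ite measurableSet_Ioo measurable_const measurable_const
  one_le_n := by
    unfold rho
    rw [ae_map_iff meas_re.aemeasurable]
    · filter_upwards [ae_restrict_mem meas_Up] with x hx
      have h := re_lt (ne_of_gt hx)
      unfold mult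
      rw [if_pos h]
      exact one_le_two
    · have : {E | 1 ≤ mult E} = Set.Ioo (-2 : ℝ) 2 := by
        ext E
        by_cases hE : E ∈ Set.Ioo (-2 : ℝ) 2
        · simp only [Set.mem_ofPred_eq, mult, if_pos hE]
          exact ⟨fun _ => hE, fun _ => one_le_two⟩
        · simp only [Set.mem_ofPred_eq, mult, if_neg hE]
          exact ⟨fun h => absurd h (by simp), fun h => absurd h hE⟩
      rw [this]
      exact measurableSet_Ioo
  n_eq_zero := fun E hE => by
    by_contra h
    apply hE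
    apply mem_supp
    by_contra h2
    apply h
    unfold mult
    rw [if_neg h2]
  measurable_u := fun α m => by
    have h1 : Measurable fun E : ℝ => (E, α) := measurable_id.prodMk measurable_const
    exact Complex.continuous_conj.measurable.comp ((meas_hh m).comp h1)
  linearIndependent := lin_ind
  growth := fun E α h => ⟨1, fun m => sol_bound (mem_of_lt h) α m⟩
  eigen := fun E α h i => eigen aa_lt (E, α) (mem_of_lt h) i
  transform := fun g => by
    have h1 : UU aa_lt (∑ m ∈ g.support, g m • (lp.single 2 m (1 : ℂ) : lp (fun _ : ℤ => ℂ) 2)) =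
        ∑ m ∈ g.support, g m • vv aa_lt m := by
      rw [map_sum]
      refine Finset.sum_congr rfl fun m _ => ?_
      rw [map_smul]
      congr 1
      exact UU_single aa_lt m
    have h2 := sum_coe aa_lt g.support g
    change (UU aa_lt (∑ m ∈ g.support, g m •
      (lp.single 2 m (1 : ℂ) : lp (fun _ : ℤ => ℂ) 2)) : ℝ × ℕ → ℂ) =ᵐ[nu] _
    rw [h1]
    filter_upwards [h2] with p hp
    rw [hp]
    refine Finset.sum_congr rfl fun m _ => ?_
    unfold sol
    rw [Complex.conj_conj, mul_comm]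
  intertwines := fun g => by
    change (UU aa_lt (AA aa_lt g) : ℝ × ℕ → ℂ) =ᵐ[nu] _
    rw [UU_AA]
    exact MM_coe _

lemma fiber_null {ρ : Measure ℝ} {n : ℝ → ℕ∞} (h : ρ (Set.Ioo (-2 : ℝ) 2) = 0) :
    ∀ᵐ p ∂(fiberMeasure ρ n), 2 ≤ |p.1| := by
  have h1 : ∀ᵐ p ∂(ρ.prod Measure.count : Measure (ℝ × ℕ)), 2 ≤ |p.1| := by
    rw [ae_iff]
    have hset : {p : ℝ × ℕ | ¬ 2 ≤ |p.1|} = (Set.Ioo (-2 : ℝ) 2) ×ˢ (Set.univ : Set ℕ) := by
      ext p
      simp only [Set.mem_ofPred_eq, Set.mem_prod, Set.mem_univ, and_true, not_le, abs_lt,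
        Set.mem_Ioo]
    rw [hset, Measure.prod_apply (measurableSet_Ioo.prod MeasurableSet.univ)]
    rw [lintegral_eq_zero_iff (measurable_measure_prodMk_left
      (measurableSet_Ioo.prod MeasurableSet.univ))]
    have h2 : ∀ᵐ E ∂ρ, E ∉ Set.Ioo (-2 : ℝ) 2 := by
      rw [ae_iff]
      exact measure_mono_null (fun E h => not_not.mp h) h
    filter_upwards [h2] with E hE
    have : Prod.mk E ⁻¹' (Set.Ioo (-2 : ℝ) 2 ×ˢ (Set.univ : Set ℕ)) = ∅ := by
      ext k
      simp only [Set.mem_preimage, Set.mem_prod, Set.mem_univ, and_true, Set.mem_empty_iff_false,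
        iff_false]
      exact hE
    rw [this, measure_empty]
    rfl
  exact ae_restrict_of_ae h1

/-- There is a bounded self-adjoint operator on the space of square summable sequences with
`a_ij = 0` for `|i - j| ≥ 3` which has a BGK expansion (with a finite measure and a growth
constant that does not depend on the energy), and for every BGK expansion of which there is a
set of energies of positive `ρ`-measure such that, for every energy of this set, all the
generalized eigenfunctions of the expansion are unbounded. -/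
theorem result : ∃ A : L2Z →L[ℂ] L2Z, IsSelfAdjoint A ∧ Banded 3 A ∧
    (∃ B : BGKExpansion A, IsFiniteMeasure B.ρ ∧ UniformGrowth B) ∧
    ∀ B : BGKExpansion A, HasUnbounded B := by
  refine ⟨theA, AA_selfAdjoint aa_lt, fun i j h => banded aa_lt i j h,
    ⟨expansion, ?_, 1, fun E α m h => sol_bound (mem_of_lt h) α m⟩, fun B => ?_⟩
  · change IsFiniteMeasure rho
    infer_instance
  · have hn : MeasurableSet {E | 1 ≤ B.n E} :=
      B.measurable_n (MeasurableSet.of_discrete (s := Set.Ici 1))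
    refine ⟨Set.Ioo (-2 : ℝ) 2 ∩ {E | 1 ≤ B.n E}, measurableSet_Ioo.inter hn, ?_, ?_⟩
    · rw [pos_iff_ne_zero]
      intro h0
      have h1 : B.ρ (Set.Ioo (-2 : ℝ) 2) = 0 := by
        refine measure_mono_null ?_ (measure_union_null h0 (ae_iff.mp B.one_le_n))
        intro E hE
        by_cases h : 1 ≤ B.n E
        · exact Or.inl ⟨hE, h⟩
        · exact Or.inr h
      have h2 := fiber_null (n := B.n) h1
      have h3 := B.intertwines (delta (Int.negSucc 1))
      have key : ∀ f f' : Lp ℂ 2 (fiberMeasure B.ρ B.n),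
          ((f' : ℝ × ℕ → ℂ) =ᵐ[fiberMeasure B.ρ B.n] fun p => (p.1 : ℂ) * f p) →
          2 * ‖f‖ ≤ ‖f'‖ := by
        intro f f' hff
        have h4 : ‖(2 : ℂ) • f‖ ≤ ‖f'‖ := by
          apply Lp.norm_le_norm_of_ae_le
          filter_upwards [h2, hff, Lp.coeFn_smul (2 : ℂ) f] with p a1 a2 a3
          rw [a2, a3, Pi.smul_apply, norm_smul, norm_mul, Complex.norm_real, Real.norm_eq_abs]
          have : ‖(2 : ℂ)‖ = 2 := by simp
          rw [this]
          gcongr
        rw [norm_smul] at h4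
        have h7 : ‖(2 : ℂ)‖ = 2 := by simp
        rwa [h7] at h4
      have h4 : 2 * ‖B.U (delta (Int.negSucc 1))‖ ≤ ‖B.U (theA (delta (Int.negSucc 1)))‖ :=
        key _ _ h3
      rw [B.U.norm_map, B.U.norm_map] at h4
      have h5 : ‖delta (Int.negSucc 1)‖ = 1 := by
        change ‖(lp.single 2 (Int.negSucc 1) (1 : ℂ) : lp (fun _ : ℤ => ℂ) 2)‖ = 1
        rw [lp.norm_single (by norm_num)]
        simp
      have h6 : ‖theA (delta (Int.negSucc 1))‖ < 2 := AA_left_norm aa_lt
      rw [h5] at h4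
      linarith
    · rintro E ⟨hE, hE1⟩
      refine ⟨hE1, fun α hα => ?_⟩
      apply sol_unbdd hE
      · intro i
        exact B.eigen E α hα i
      · have := (B.linearIndependent E).ne_zero ⟨α, hα⟩
        exact this

end Pool.Agent.Results.MP_33280d_mp.UnboundedEigenfunctions
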